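import Mathlib
import Pool.Agent.Lib.MP_d299d2_al.Normal

set_option autoImplicit false

/-!
# Left Engel elements in periodic groups of regular automorphisms

`A` is a periodic group acting on the abelian group `G ≠ 0` such that no element `≠ 1` of `A` fixes
a nonzero element of `G`. If `a` in `A` has prime order and is a left Engel element then `⟨a⟩` is
normal in `A`; if the order of `a` is the smallest prime order of an element then `a` is central.
-/

namespace Pool.Agent.Results.MP_d299d2_al.EngelElements

open Pool.Agent.MPd299d2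

theorem result {A G : Type*} [Group A] [AddCommGroup G] [Nontrivial G] [DistribMulAction A G]
    (hper : ∀ b : A, IsOfFinOrder b) (hreg : ∀ b : A, b ≠ 1 → ∀ g : G, b • g = g → g = 0)
    (a : A) (ha : (orderOf a).Prime)
    (hengel : ∀ x : A, ∃ n : ℕ, (fun y : A => y * a * y⁻¹ * a⁻¹)^[n] x = 1) :
    (Subgroup.zpowers a).Normal ∧
      ((∀ b : A, (orderOf b).Prime → orderOf a ≤ orderOf b) → a ∈ Subgroup.center A) := by
  have h : PR A G := ⟨hper, hreg⟩
  have key : ∀ (n : ℕ) (x : A), (fun y : A => y * a * y⁻¹ * a⁻¹)^[n] x = 1 →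
      x * a * x⁻¹ ∈ Subgroup.zpowers a := by
    intro n
    induction n with
    | zero =>
      intro x hx
      rw [Function.iterate_zero, id_eq] at hx
      rw [hx, one_mul, inv_one, mul_one]
      exact Subgroup.mem_zpowers a
    | succ n ih =>
      intro x hx
      rw [Function.iterate_succ_apply] at hx
      have h1 := ih _ hx
      set b := x * a * x⁻¹ with hb
      have h2 : b * a * b⁻¹ ∈ Subgroup.zpowers a := by
        have h3 : b * a⁻¹ * a * (b * a⁻¹)⁻¹ = b * a * b⁻¹ := by group
        rwa [h3] at h1
      have h4 : b ^ orderOf a = 1 := by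
        rw [hb, conj_pow, pow_orderOf_eq_one, mul_one, mul_inv_cancel]
      exact h.conj_mem ha (commute_of_conj ha rfl h4 h2).symm
  have hconj : ∀ x : A, x * a * x⁻¹ ∈ Subgroup.zpowers a := fun x => by
    obtain ⟨n, hn⟩ := hengel x
    exact key n x hn
  refine ⟨⟨fun y hy x => ?_⟩, fun hmin => central_of_conj ha rfl hmin hper hconj⟩
  obtain ⟨k, rfl⟩ := Subgroup.mem_zpowers_iff.mp hy
  rw [← conj_zpow]
  exact zpow_mem (hconj x) k

end Pool.Agent.Results.MP_d299d2_al.EngelElements
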