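import Mathlib
import Pool.Agent.Lib.MP_d299d2_al.FiveGroup
import Pool.Agent.Lib.MP_d299d2_al.Normal

set_option autoImplicit false

/-!
# Elements of order five in periodic groups of regular automorphisms

`A` is a periodic group acting on the abelian group `G ≠ 0` such that no element `≠ 1` of `A` fixes
a nonzero element of `G`. A coset `a⟨b⟩` with `b ≠ 1` never consists of elements of order five.
Consequences: criteria for an element of order five to be central and for the centre to be
nontrivial; the case that all elements of order different from five lie in a proper subgroup.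
-/

namespace Pool.Agent.Results.MP_d299d2_al.OrderFive

open Pool.Agent.MPd299d2

theorem mem_zpowers {A G : Type*} [Group A] [AddCommGroup G] [Nontrivial G]
    [DistribMulAction A G] (h : PR A G) {a b : A} (hb : orderOf b = 5)
    (h5 : ∀ i : ℕ, (a * b ^ i) ^ 5 = 1) : a ∈ Subgroup.zpowers b := by
  by_contra hcon
  have h1 : ∀ i : ℕ, orderOf (a * b ^ i) = 5 := by
    intro i
    have : Fact (Nat.Prime 5) := ⟨by norm_num⟩
    refine orderOf_eq_prime (h5 i) (fun h1 => hcon ?_)
    rw [eq_inv_of_mul_eq_one_left h1]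
    exact inv_mem (pow_mem (Subgroup.mem_zpowers b) i)
  have h2 := h.coset h1
  rw [h2, orderOf_one] at hb
  omega

theorem result {A G : Type*} [Group A] [AddCommGroup G] [Nontrivial G] [DistribMulAction A G]
    (hper : ∀ b : A, IsOfFinOrder b) (hreg : ∀ b : A, b ≠ 1 → ∀ g : G, b • g = g → g = 0) :
    (∀ a b : A, (∀ i : ℕ, orderOf (a * b ^ i) = 5) → b = 1) ∧
    (∀ a : A, orderOf a = 5 → (a ∈ Subgroup.center A ↔
      ∀ (x : A) (i : ℕ), orderOf (a * (a⁻¹ * (x * a * x⁻¹)) ^ i) = 5)) ∧
    (∀ a : A, orderOf a = 5 → (∀ (x : A) (i : ℕ), (a * (x * a * x⁻¹) ^ i) ^ 5 = 1) →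
      (Subgroup.zpowers a).Normal ∧ Subgroup.center A ≠ ⊥) ∧
    (∀ N : Subgroup A, N ≠ ⊤ → (∀ a : A, a ∉ N → orderOf a = 5) → Nat.card A = 5) := by
  have h : PR A G := ⟨hper, hreg⟩
  have h5p : Nat.Prime 5 := by norm_num
  refine ⟨fun a b h1 => h.coset h1, fun a ha => ⟨fun hc x i => ?_, fun h1 => ?_⟩,
    fun a ha h1 => ?_, fun N hN h1 => ?_⟩
  · have h2 : x * a * x⁻¹ = a := by
      rw [Subgroup.mem_center_iff.mp hc x, mul_inv_cancel_right]
    rw [h2, inv_mul_cancel, one_pow, mul_one, ha]
  · rw [Subgroup.mem_center_iff]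
    intro x
    have h2 := h.coset (h1 x)
    have h3 : x * a * x⁻¹ = a := (inv_mul_eq_one.mp h2).symm
    exact mul_inv_eq_iff_eq_mul.mp h3
  · have hconj : ∀ x : A, x * a * x⁻¹ ∈ Subgroup.zpowers a := by
      intro x
      have hox : orderOf (x⁻¹ * a * x) = 5 := by
        have h2 : x⁻¹ * a * x = MulAut.conj x⁻¹ a := by rw [MulAut.conj_apply, inv_inv]
        rw [h2, ← ha]
        exact orderOf_injective (MulAut.conj x⁻¹).toMonoidHom (MulAut.conj x⁻¹).injective a
      have h2 := mem_zpowers h hox (fun i => by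
        have := h1 x⁻¹ i
        rwa [inv_inv] at this)
      obtain ⟨k, hk⟩ := Subgroup.mem_zpowers_iff.mp h2
      rw [Subgroup.mem_zpowers_iff]
      refine ⟨k, ?_⟩
      have h3 : (x⁻¹ * a * x) ^ k = x⁻¹ * a ^ k * x := by
        have h4 := conj_zpow (i := k) (a := x⁻¹) (b := a)
        rwa [inv_inv] at h4
      rw [h3] at hk
      calc a ^ k = x * (x⁻¹ * a ^ k * x) * x⁻¹ := by group
        _ = x * a * x⁻¹ := by rw [hk]
    have hnormal : (Subgroup.zpowers a).Normal := by
      refine ⟨fun y hy x => ?_⟩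
      obtain ⟨k, rfl⟩ := Subgroup.mem_zpowers_iff.mp hy
      rw [← conj_zpow]
      exact zpow_mem (hconj x) k
    refine ⟨hnormal, ?_⟩
    suffices hz : ∃ z ∈ Subgroup.center A, z ≠ 1 by
      obtain ⟨z, hz, hz1⟩ := hz
      intro hbot
      rw [hbot, Subgroup.mem_bot] at hz
      exact hz1 hz
    by_cases h2 : ∀ b : A, orderOf b ≠ 2
    swap
    · push Not at h2
      obtain ⟨t, ht⟩ := h2
      refine ⟨t, Subgroup.mem_center_iff.mpr (h.two_central ht), ?_⟩
      rintro rfl
      rw [orderOf_one] at ht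
      omega
    · refine ⟨a, ?_, ?_⟩
      · rw [Subgroup.mem_center_iff]
        intro x
        refine commute_of_conj_coprime h5p ha (pow_orderOf_eq_one x) ?_ (hconj x)
        have h3 : Odd (orderOf x) := odd_of_ne_two hper h2 x
        have h4 : (5 - 1 : ℕ) = 2 ^ 2 := by norm_num
        rw [h4]
        exact Nat.Coprime.pow_right 2 (Nat.coprime_two_right.mpr h3)
      · rintro rfl
        rw [orderOf_one] at ha
        omega
  · obtain ⟨a, ha⟩ : ∃ a, a ∉ N := by
      by_contra hcon
      push Not at hcon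
      exact hN (Subgroup.ext fun x => ⟨fun _ => Subgroup.mem_top x, fun _ => hcon x⟩)
    have hbot : ∀ b ∈ N, b = 1 := by
      intro b hb
      refine h.coset (a := a) fun i => h1 _ fun hmem => ha ?_
      have := N.mul_mem hmem (N.inv_mem (N.pow_mem hb i))
      rwa [mul_inv_cancel_right] at this
    have hexp : ∀ b : A, b ^ 5 = 1 := by
      intro b
      by_cases hb : b ∈ N
      · rw [hbot b hb, one_pow]
      · rw [← h1 b hb, pow_orderOf_eq_one]
    have htop : ∀ c : A, c ∈ Subgroup.zpowers a := fun c =>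
      mem_zpowers h (h1 a ha) fun i => hexp _
    rw [← h1 a ha]
    exact (orderOf_eq_card_of_forall_mem_zpowers htop).symm

end Pool.Agent.Results.MP_d299d2_al.OrderFive
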