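import Mathlib
import Pool.Agent.Lib.MP_d299d2_al.Central
import Pool.Agent.Lib.MP_d299d2_al.Key
import Pool.Agent.Lib.MP_d299d2_al.Vec
import Pool.Agent.Lib.MP_d299d2_al.Tlem

set_option autoImplicit false

/-!
# Quadratic elements in periodic groups of regular automorphisms

`A` is a periodic group acting on the abelian group `G ≠ 0` such that no element `≠ 1` of `A` fixes
a nonzero element of `G`. If some element `a ≠ 1` of `A` satisfies a quadratic equation
`a ^ 2 = u a + v` whose coefficients are endomorphisms of `G` which commute with `A`, then the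
centre of `A` is not trivial.
-/

namespace Pool.Agent.Results.MP_d299d2_al.QuadraticElements

open Pool.Agent.MPd299d2

/-- the conjugates of a quadratic element commute with it -/
theorem commute_conj {A Ω V : Type*} [Group A] [Field Ω] [AddCommGroup V] [Module Ω V]
    [Nontrivial V] {φ : A →* Module.End Ω V} (hφ : Reg φ) (ht : ∀ a : A, IsOfFinOrder a)
    (h2 : ∀ a : A, orderOf a ≠ 2) {c : A} {q : ℕ} (hq : q.Prime) (hc : orderOf c = q) (α β : Ω)
    (hquad : ∀ x, φ c (φ c x) = (α + β) • φ c x - (α * β) • x) (b : A) :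
    c * (b * c * b⁻¹) = b * c * b⁻¹ * c := by
  set c' := b * c * b⁻¹ with hc'
  have hoc' : orderOf c' = q := by
    have : c' = MulAut.conj b c := rfl
    rw [this, ← hc]
    exact orderOf_injective (MulAut.conj b).toMonoidHom (MulAut.conj b).injective c
  have q1 : φ c * φ c = (α + β) • φ c + (-(α * β)) • 1 := by
    ext x
    rw [Module.End.mul_apply, hquad, LinearMap.add_apply, LinearMap.smul_apply,
      LinearMap.smul_apply, Module.End.one_apply, neg_smul, sub_eq_add_neg]
  have q2 : φ c' * φ c' = (α + β) • φ c' + (-(α * β)) • 1 := by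
    have h1 : φ c' = φ b * φ c * φ b⁻¹ := by rw [hc', map_mul, map_mul]
    have h3 : φ b⁻¹ * φ b = 1 := by rw [← map_mul, inv_mul_cancel, map_one]
    have h4 : φ b * φ b⁻¹ = 1 := by rw [← map_mul, mul_inv_cancel, map_one]
    calc φ c' * φ c' = φ b * φ c * (φ b⁻¹ * φ b) * φ c * φ b⁻¹ := by
          rw [h1]; simp only [mul_assoc]
      _ = φ b * (φ c * φ c) * φ b⁻¹ := by rw [h3, mul_one]; simp only [mul_assoc]
      _ = (α + β) • (φ b * φ c * φ b⁻¹) + (-(α * β)) • (φ b * φ b⁻¹) := by
          rw [q1, mul_add, add_mul, mul_smul_comm, smul_mul_assoc, mul_smul_comm, smul_mul_assoc,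
            mul_one]
      _ = _ := by rw [h4, ← h1]
  obtain ⟨x, hx⟩ := exists_ne (0 : V)
  obtain ⟨W, hWf, hxW, hW1, hW2⟩ := exists_invariant (φ c) (φ c') _ _ _ _ q1 q2
    (orderOf (c * c')) (ht _).orderOf_pos (by rw [← map_mul, ← map_pow, pow_orderOf_eq_one, map_one]) x
  set H : Subgroup A := Subgroup.closure {c, c'} with hH
  have hWH : ∀ h ∈ H, ∀ y ∈ W, φ h y ∈ W := by
    have key : ∀ h ∈ Submonoid.closure ({c, c'} : Set A), ∀ y ∈ W, φ h y ∈ W := by
      intro h hh
      induction hh using Submonoid.closure_induction with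
      | mem h hh =>
        rcases hh with rfl | hh
        · exact hW1
        · rw [Set.mem_singleton_iff.mp hh]
          exact hW2
      | one => intro y hy; rwa [map_one]
      | mul g h _ _ ihg ihh =>
        intro y hy
        rw [map_mul]
        exact ihg _ (ihh y hy)
    have key2 : ∀ h ∈ H, h ∈ Submonoid.closure ({c, c'} : Set A) := by
      intro h hh
      rw [hH] at hh
      induction hh using Subgroup.closure_induction with
      | mem h hh => exact Submonoid.subset_closure hh
      | one => exact one_mem _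
      | mul g h _ _ ihg ihh => exact mul_mem ihg ihh
      | inv g _ ih =>
        have h1 : g⁻¹ = g ^ (orderOf g - 1) := by
          rw [inv_eq_iff_mul_eq_one, ← pow_succ', Nat.sub_add_cancel (ht g).orderOf_pos,
            pow_orderOf_eq_one]
        rw [h1]
        exact pow_mem ih _
    exact fun h hh => key h (key2 h hh)
  let ρ : H →* Module.End Ω W :=
    { toFun := fun h => (φ h).restrict (hWH h h.2)
      map_one' := by
        ext y
        simp [LinearMap.restrict_apply]
      map_mul' := fun g h => by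
        ext y
        simp [LinearMap.restrict_apply] }
  have hρ : ∀ (h : H) (y : W), ((ρ h y : W) : V) = φ h y := fun h y => rfl
  have hρpow : ∀ (h : H) (k : ℕ) (y : W), (((ρ h ^ k) y : W) : V) = (φ h ^ k) y := by
    intro h k y
    rw [← map_pow, hρ, Subgroup.coe_pow, map_pow]
  have hWn : Nontrivial W := ⟨⟨⟨x, hxW⟩, 0, fun h => hx (congrArg Subtype.val h)⟩⟩
  have hord : ∀ h : H, orderOf ((h : H) : A) = orderOf h := fun h => Subgroup.orderOf_coe h
  have hρR : Reg ρ := by
    intro h hp
    have hp' : (orderOf (h : A)).Prime := by rw [hord]; exact hp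
    refine ⟨?_, (isUnit_natCast_iff _).mpr ?_⟩
    · ext y
      have h1 := congrArg (fun f : Module.End Ω V => f (y : V)) (hφ (h : A) hp').1
      simp only [LinearMap.sum_apply, LinearMap.zero_apply] at h1
      rw [LinearMap.sum_apply, LinearMap.zero_apply, AddSubmonoidClass.coe_finsetSum]
      simp only [hρpow]
      rw [hord] at h1
      exact h1
    · have := hφ.natCast_ne hp'
      rwa [hord] at this
  have hcH : c ∈ H := Subgroup.subset_closure (Set.mem_insert _ _)
  have hc'H : c' ∈ H := Subgroup.subset_closure (Set.mem_insert_of_mem _ rfl)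
  have hfin := Reg.commute hρR
    (fun h => orderOf_pos_iff.mp (by rw [← hord]; exact (ht (h : A)).orderOf_pos))
    (fun h => by rw [← hord]; exact h2 h) (a := ⟨c, hcH⟩) (b := ⟨c', hc'H⟩) hq
    (by rw [← hord]; exact hc) (by rw [← hord]; exact hoc')
  exact congrArg Subtype.val hfin

theorem result {A G : Type*} [Group A] [AddCommGroup G] [Nontrivial G] [DistribMulAction A G]
    (hper : ∀ b : A, IsOfFinOrder b) (hreg : ∀ b : A, b ≠ 1 → ∀ g : G, b • g = g → g = 0)
    (a : A) (ha : a ≠ 1) (u v : G →+ G) (hu : ∀ (b : A) (g : G), u (b • g) = b • u g)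
    (hv : ∀ (b : A) (g : G), v (b • g) = b • v g)
    (hquad : ∀ g : G, a • a • g = u (a • g) + v g) : Subgroup.center A ≠ ⊥ := by
  have h : PR A G := ⟨hper, hreg⟩
  suffices hz : ∃ z ∈ Subgroup.center A, z ≠ 1 by
    obtain ⟨z, hz, hz1⟩ := hz
    intro hbot
    rw [hbot, Subgroup.mem_bot] at hz
    exact hz1 hz
  by_cases h2 : ∀ b : A, orderOf b ≠ 2
  swap
  · push Not at h2
    obtain ⟨t, ht⟩ := h2
    refine ⟨t, Subgroup.mem_center_iff.mpr (h.two_central ht), ?_⟩
    rintro rfl
    rw [orderOf_one] at ht
    omega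
  have huv : ∀ g, u (v g) = v (u g) := by
    intro g
    have h1 := hquad (u g)
    have h3 := congrArg u (hquad g)
    rw [map_add, hu, hu, h1] at h3
    rw [← hu a g] at h3
    exact (add_left_cancel h3).symm
  obtain ⟨Ω, _, _, V, _, _, _, φ, μ, ν, hφ, hφq⟩ := exists_vec h u v huv hu hv
  have hf := hφq a hquad
  obtain ⟨k, hk⟩ := exists_pow_prime ha (hper a)
  -- the roots of the quadratic polynomial
  obtain ⟨α, hα⟩ : ∃ α : Ω, α ^ 2 - μ * α - ν = 0 := by
    obtain ⟨α, hα⟩ := IsAlgClosed.exists_root
      (Polynomial.X ^ 2 - Polynomial.C μ * Polynomial.X - Polynomial.C ν : Polynomial Ω) (by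
        have : (Polynomial.X ^ 2 - Polynomial.C μ * Polynomial.X - Polynomial.C ν :
          Polynomial Ω).degree = 2 := by compute_degree!
        rw [this]
        decide)
    exact ⟨α, by simpa [Polynomial.IsRoot] using hα⟩
  set β := μ - α with hβ
  have hmin : Polynomial.aeval (φ a)
      ((Polynomial.X - Polynomial.C α) * (Polynomial.X - Polynomial.C β)) = 0 := by
    have h4 : (Polynomial.X - Polynomial.C α) * (Polynomial.X - Polynomial.C β) =
        (Polynomial.X ^ 2 - Polynomial.C μ * Polynomial.X - Polynomial.C ν : Polynomial Ω) := by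
      have h5 : Polynomial.C α * Polynomial.C β = -(Polynomial.C ν : Polynomial Ω) := by
        rw [← Polynomial.C_mul, ← Polynomial.C_neg]
        congr 1
        rw [hβ]
        linear_combination -hα
      have h6 : (Polynomial.C α + Polynomial.C β : Polynomial Ω) = Polynomial.C μ := by
        rw [← Polynomial.C_add, hβ]
        congr 1
        ring
      linear_combination h5 - Polynomial.X * h6
    rw [h4, map_sub, map_sub, map_mul, map_pow, Polynomial.aeval_X, Polynomial.aeval_C,
      Polynomial.aeval_C, pow_two, hf, Algebra.algebraMap_eq_smul_one,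
      Algebra.algebraMap_eq_smul_one, smul_mul_assoc, one_mul]
    abel
  have hmin2 : Polynomial.aeval (φ (a ^ k)) ((Polynomial.X - Polynomial.C (α ^ k)) *
      (Polynomial.X - Polynomial.C (β ^ k)) : Polynomial Ω) = 0 := by
    have hdvd : ((Polynomial.X - Polynomial.C α) * (Polynomial.X - Polynomial.C β) :
        Polynomial Ω) ∣ (Polynomial.X ^ k - Polynomial.C (α ^ k)) *
          (Polynomial.X ^ k - Polynomial.C (β ^ k)) := by
      rw [Polynomial.C_pow, Polynomial.C_pow]
      exact mul_dvd_mul (sub_dvd_pow_sub_pow _ _ k) (sub_dvd_pow_sub_pow _ _ k)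
    obtain ⟨r, hr⟩ := hdvd
    have h4 := congrArg (Polynomial.aeval (φ a)) hr
    rw [map_mul _ _ r, hmin, zero_mul] at h4
    simpa using h4
  have hquadk : ∀ x, φ (a ^ k) (φ (a ^ k) x) =
      (α ^ k + β ^ k) • φ (a ^ k) x - (α ^ k * β ^ k) • x := by
    intro x
    have h4 := congrArg (fun f : Module.End Ω V => f x) hmin2
    simp only [map_mul, map_sub, Polynomial.aeval_X, Polynomial.aeval_C, Module.End.mul_apply,
      LinearMap.sub_apply, Module.algebraMap_end_apply, LinearMap.zero_apply, map_smul,
      smul_sub, smul_smul] at h4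
    rw [add_smul]
    rw [mul_comm (α ^ k) (β ^ k)]
    rw [sub_eq_zero] at h4
    rw [eq_add_of_sub_eq h4]
    abel
  refine ⟨a ^ k, ?_, fun h1 => ?_⟩
  · refine central_of_quadratic hφ hper h2 hk rfl (α ^ k) (β ^ k) hquadk fun b => ?_
    exact h.conj_mem hk (commute_conj hφ hper h2 hk rfl _ _ hquadk b)
  · rw [h1, orderOf_one] at hk
    exact Nat.not_prime_one hk

end Pool.Agent.Results.MP_d299d2_al.QuadraticElements
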