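import Mathlib
import Pool.Agent.Lib.MP_d299d2_al.Block

set_option autoImplicit false

/-!
# Semilinear and imprimitive periodic groups of regular automorphisms

`A` is a periodic group acting on the abelian group `G` such that no element `≠ 1` of `A` fixes a
nonzero element of `G`. Suppose that `G` has a subgroup `U ≠ 0` whose distinct translates under `A`
are independent, and that `U` is a finitely generated module over a commutative ring `B` whose
action on `U` is normalized by the stabilizer of `U` in `A`. Then the centre of `A` is not trivial.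
-/

namespace Pool.Agent.Results.MP_d299d2_al.SemilinearBlocks

open Pool.Agent.MPd299d2 Pointwise

/-- the action of the stabilizer of a block -/
def blockAction {A G : Type*} [Group A] [AddCommGroup G] [DistribMulAction A G]
    (U : AddSubgroup G) : DistribMulAction (MulAction.stabilizer A U) U where
  smul n x := ⟨(n : A) • (x : G), by
    have h1 : (n : A) • (x : G) ∈ (n : A) • U := AddSubgroup.smul_mem_pointwise_smul _ _ U x.2
    rwa [MulAction.mem_stabilizer_iff.mp n.2] at h1⟩
  one_smul x := Subtype.ext (one_smul A (x : G))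
  mul_smul m n x := Subtype.ext (mul_smul (m : A) (n : A) (x : G))
  smul_zero n := Subtype.ext (smul_zero (n : A))
  smul_add n x y := Subtype.ext (smul_add (n : A) (x : G) (y : G))

theorem central {A G B : Type*} [Group A] [AddCommGroup G] [DistribMulAction A G]
    (h : PR A G) (U : AddSubgroup G) (hU : U ≠ ⊥)
    (hind : sSupIndep (Set.range fun a : A => a • U))
    [CommRing B] [Module B U] [Module.Finite B U]
    (hnorm : ∀ a : A, a • U = U → ∀ b : B, ∃ b' : B, ∀ x y : U, (y : G) = a • (x : G) →
      ((b' • y : U) : G) = a • ((b • x : U) : G))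
    {a : A} (ha : (orderOf a).Prime) (hmin : ∀ b : A, (orderOf b).Prime → orderOf a ≤ orderOf b) :
    a ∈ Subgroup.center A := by
  have hUn : Nontrivial U := (AddSubgroup.nontrivial_iff_ne_bot U).mpr hU
  have hGn : Nontrivial G := by
    obtain ⟨x, hx⟩ := exists_ne (0 : U)
    exact ⟨⟨x, 0, fun h0 => hx (Subtype.ext h0)⟩⟩
  by_cases ha2 : orderOf a = 2
  · exact Subgroup.mem_center_iff.mpr (h.two_central ha2)
  have h2 : ∀ b : A, orderOf b ≠ 2 := by
    intro b hb
    have h3 := hmin b (by rw [hb]; exact Nat.prime_two)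
    rw [hb] at h3
    exact ha2 (le_antisymm h3 ha.two_le)
  refine central_of_conj ha rfl hmin h.per fun b => h.conj_mem ha ?_
  set c := b * a * b⁻¹ with hc
  have hoc : orderOf c = orderOf a := by
    have h3 : c = MulAut.conj b a := rfl
    rw [h3]
    exact orderOf_injective (MulAut.conj b).toMonoidHom (MulAut.conj b).injective a
  let _ : DistribMulAction (MulAction.stabilizer A U) U := blockAction U
  have hsm : ∀ (n : MulAction.stabilizer A U) (x : U), ((n • x : U) : G) = (n : A) • (x : G) :=
    fun n x => rfl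
  have hord : ∀ n : MulAction.stabilizer A U, orderOf (n : A) = orderOf n :=
    fun n => Subgroup.orderOf_coe n
  have hPR : PR (MulAction.stabilizer A U) U := by
    constructor
    · intro n
      exact orderOf_pos_iff.mp (by rw [← hord]; exact (h.per (n : A)).orderOf_pos)
    · intro n hn x hx
      have h3 : (n : A) ≠ 1 := fun h4 => hn (Subtype.ext h4)
      exact Subtype.ext (h.reg (n : A) h3 x (congrArg Subtype.val hx))
  have haU : a ∈ MulAction.stabilizer A U :=
    MulAction.mem_stabilizer_iff.mpr (h.smul_block hU hind ha)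
  have hcU : c ∈ MulAction.stabilizer A U :=
    MulAction.mem_stabilizer_iff.mpr (h.smul_block hU hind (by rw [hoc]; exact ha))
  have h3 := commute_of_semilinear (B := B) hPR (fun n => by rw [← hord]; exact h2 n)
    (fun n b => by
      obtain ⟨b', hb'⟩ := hnorm (n : A) (MulAction.mem_stabilizer_iff.mp n.2) b
      exact ⟨b', fun m => Subtype.ext (hb' m (n • m) rfl).symm⟩)
    (a := ⟨a, haU⟩) (b := ⟨c, hcU⟩) ha (by rw [← hord]) (by rw [← hord]; exact hoc)
  exact congrArg Subtype.val h3

theorem result {A G B : Type*} [Group A] [Nontrivial A] [AddCommGroup G] [DistribMulAction A G]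
    (hper : ∀ b : A, IsOfFinOrder b) (hreg : ∀ b : A, b ≠ 1 → ∀ g : G, b • g = g → g = 0)
    (U : AddSubgroup G) (hU : U ≠ ⊥) (hind : sSupIndep (Set.range fun a : A => a • U))
    [CommRing B] [Module B U] [Module.Finite B U]
    (hnorm : ∀ a : A, a • U = U → ∀ b : B, ∃ b' : B, ∀ x y : U, (y : G) = a • (x : G) →
      ((b' • y : U) : G) = a • ((b • x : U) : G)) :
    Subgroup.center A ≠ ⊥ ∧ ∀ a : A, (orderOf a).Prime →
      (∀ b : A, (orderOf b).Prime → orderOf a ≤ orderOf b) → a ∈ Subgroup.center A := by
  have h : PR A G := ⟨hper, hreg⟩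
  have hcen : ∀ a : A, (orderOf a).Prime →
      (∀ b : A, (orderOf b).Prime → orderOf a ≤ orderOf b) → a ∈ Subgroup.center A :=
    fun a ha hmin => central h U hU hind hnorm ha hmin
  refine ⟨?_, hcen⟩
  obtain ⟨c, hc⟩ := exists_ne (1 : A)
  obtain ⟨k, hk⟩ := exists_pow_prime hc (hper c)
  have hex : ∃ q : ℕ, q.Prime ∧ ∃ b : A, orderOf b = q := ⟨_, hk, _, rfl⟩
  classical
  obtain ⟨hq, a, ha⟩ := Nat.find_spec hex
  intro hbot
  have h1 := hcen a (by rw [ha]; exact hq) fun b hb => by
    rw [ha]
    exact Nat.find_min' hex ⟨hb, b, rfl⟩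
  rw [hbot, Subgroup.mem_bot] at h1
  rw [h1, orderOf_one] at ha
  exact hq.one_lt.ne ha

end Pool.Agent.Results.MP_d299d2_al.SemilinearBlocks
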